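import Mathlib
import Pool.Agent.Helper43.GH.Defs


/-!
# Project GH, block M5
On Hermitian `z ∈ k` the square is a multiple of `p`, so `z w + w z` is a multiple of `p` for all `z, w ∈ k`. If
the dimension is at least four there are nonzero `z₁`, `z₂` (Hermitian, anticommuting), `z₃ = i z₁ z₂` and
`z₄` anticommuting with all of them, but commuting with `z₃`; so `z₃ z₄ = 0` and `z₄ = 0`.
-/

set_option linter.unusedSectionVars false
set_option linter.unusedVariables false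

open Matrix Module
open scoped ComplexOrder

namespace GH

variable {n : Type*} [Fintype n] [DecidableEq n]

private lemma sq_ne_15 {k : Submodule ℂ (Matrix n n ℂ)} {p z : Matrix n n ℂ} {c : ℂ} (h : zᴴ = z)
    (h0 : z ≠ 0) (hc : z * z = c • p) : c ≠ 0 := by
  rintro rfl
  rw [zero_smul] at hc
  apply h0
  apply Matrix.conjTranspose_mul_self_eq_zero.mp
  rw [h, hc]

private lemma herm_15 {k : Submodule ℂ (Matrix n n ℂ)} (st : ∀ x ∈ k, xᴴ ∈ k) {z : Matrix n n ℂ}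
    (hz : z ∈ k) (h0 : z ≠ 0) (P : Matrix n n ℂ → Prop) (hP : ∀ x, P x → P xᴴ)
    (ha : ∀ x y, P x → P y → P (x + y)) (hs : ∀ (c : ℂ) x, P x → P (c • x)) (h : P z) :
    ∃ w ∈ k, wᴴ = w ∧ w ≠ 0 ∧ P w := by
  by_cases h1 : z + zᴴ = 0
  · refine ⟨Complex.I • z, k.smul_mem _ hz, ?_, ?_, hs _ _ h⟩
    · have e : zᴴ = -z := by
        rw [add_comm] at h1
        exact eq_neg_of_add_eq_zero_left h1
      rw [Matrix.conjTranspose_smul, e]
      simp
    · exact smul_ne_zero Complex.I_ne_zero h0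
  · refine ⟨z + zᴴ, k.add_mem hz (st z hz), ?_, h1, ha _ _ h (hP _ h)⟩
    rw [Matrix.conjTranspose_add, Matrix.conjTranspose_conjTranspose, add_comm]

private lemma anti_15 {k : Submodule ℂ (Matrix n n ℂ)} (st : ∀ x ∈ k, xᴴ ∈ k) {p : Matrix n n ℂ}
    (hsq : ∀ z ∈ k, zᴴ = z → ∃ c : ℂ, z * z = c • p) {z w : Matrix n n ℂ} (hz : z ∈ k) (hw : w ∈ k) :
    z * w + w * z ∈ Submodule.span ℂ {p} := by
  have h1 : ∀ a ∈ k, ∀ b ∈ k, aᴴ = a → bᴴ = b → a * b + b * a ∈ Submodule.span ℂ {p} := by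
    intro a ha b hb ea eb
    obtain ⟨c1, h1⟩ := hsq a ha ea
    obtain ⟨c2, h2⟩ := hsq b hb eb
    obtain ⟨c3, h3⟩ := hsq (a + b) (k.add_mem ha hb) (by rw [Matrix.conjTranspose_add, ea, eb])
    rw [Submodule.mem_span_singleton]
    refine ⟨c3 - c1 - c2, ?_⟩
    rw [sub_smul, sub_smul, ← h1, ← h2, ← h3]
    noncomm_ring
  have h2 : ∀ a ∈ k, ∃ x ∈ k, ∃ y ∈ k, xᴴ = x ∧ yᴴ = y ∧ a = x + Complex.I • y := by
    intro a ha
    refine ⟨(1 / 2 : ℂ) • (a + aᴴ), k.smul_mem _ (k.add_mem ha (st a ha)),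
      (-(Complex.I / 2) : ℂ) • (a - aᴴ), k.smul_mem _ (k.sub_mem ha (st a ha)), ?_, ?_, ?_⟩
    · rw [Matrix.conjTranspose_smul, Matrix.conjTranspose_add, Matrix.conjTranspose_conjTranspose,
        add_comm]
      simp
    · rw [Matrix.conjTranspose_smul, Matrix.conjTranspose_sub, Matrix.conjTranspose_conjTranspose,
        ← neg_sub a aᴴ, smul_neg, ← neg_smul]
      congr 1
      simp
      ring
    · rw [smul_smul]
      have e : Complex.I * -(Complex.I / 2) = 1 / 2 := by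
        rw [mul_neg, ← mul_div_assoc, Complex.I_mul_I]
        norm_num
      rw [e, ← smul_add]
      have e2 : a + aᴴ + (a - aᴴ) = (2 : ℂ) • a := by
        rw [two_smul]; abel
      rw [e2, smul_smul]
      norm_num
  obtain ⟨x, hx, y, hy, ex, ey, rfl⟩ := h2 z hz
  obtain ⟨x', hx', y', hy', ex', ey', rfl⟩ := h2 w hw
  have e : (x + Complex.I • y) * (x' + Complex.I • y') + (x' + Complex.I • y') * (x + Complex.I • y) =
      (x * x' + x' * x) + Complex.I • (x * y' + y' * x) + Complex.I • (y * x' + x' * y) -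
        (y * y' + y' * y) := by
    simp only [add_mul, mul_add, Matrix.smul_mul, Matrix.mul_smul, smul_add, smul_smul,
      Complex.I_mul_I, neg_smul, one_smul]
    abel
  rw [e]
  exact Submodule.sub_mem _ (Submodule.add_mem _ (Submodule.add_mem _ (h1 _ hx _ hx' ex ex')
    (Submodule.smul_mem _ _ (h1 _ hx _ hy' ex ey')))
    (Submodule.smul_mem _ _ (h1 _ hy _ hx' ey ex'))) (h1 _ hy _ hy' ey ey')

/-- the anticommutator with `w` -/
private noncomputable def ac_15 {k : Submodule ℂ (Matrix n n ℂ)} (st : ∀ x ∈ k, xᴴ ∈ k)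
    {p : Matrix n n ℂ} (hsq : ∀ z ∈ k, zᴴ = z → ∃ c : ℂ, z * z = c • p) (w : k) :
    k →ₗ[ℂ] Submodule.span ℂ {p} :=
  LinearMap.codRestrict (Submodule.span ℂ {p})
    { toFun := fun z : k => (z : Matrix n n ℂ) * w + w * z
      map_add' := fun a b => by
        simp only [Submodule.coe_add, add_mul, mul_add]
        abel
      map_smul' := fun c a => by
        simp only [Submodule.coe_smul, Matrix.smul_mul, Matrix.mul_smul, smul_add, RingHom.id_apply] }
    (fun z => anti_15 st hsq z.2 w.2)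

private lemma ac_zero_15 {k : Submodule ℂ (Matrix n n ℂ)} (st : ∀ x ∈ k, xᴴ ∈ k)
    {p : Matrix n n ℂ} (hsq : ∀ z ∈ k, zᴴ = z → ∃ c : ℂ, z * z = c • p) (w z : k)
    (h : ac_15 st hsq w z = 0) : (z : Matrix n n ℂ) * w + w * z = 0 :=
  congrArg Subtype.val h

private lemma fr_15 (p : Matrix n n ℂ) : finrank ℂ (Submodule.span ℂ {p}) ≤ 1 := by
  have := finrank_span_le_card (R := ℂ) ({p} : Set (Matrix n n ℂ))
  simpa using this

/-- M5 -/
theorem le_three {k : Submodule ℂ (Matrix n n ℂ)} (br : ∀ x ∈ k, ∀ y ∈ k, x * y - y * x ∈ k)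
    (st : ∀ x ∈ k, xᴴ ∈ k) {p : Matrix n n ℂ} (hp : ∀ z ∈ k, p * z = z) (hp' : ∀ z ∈ k, z * p = z)
    (hsq : ∀ z ∈ k, zᴴ = z → ∃ c : ℂ, z * z = c • p) : finrank ℂ k ≤ 3 := by
  by_contra hcon
  have h4 : 3 < finrank ℂ k := by omega
  have hf := fr_15 p
  -- the first element
  have hk0 : ∃ z ∈ k, z ≠ 0 := by
    by_contra h
    push Not at h
    have e : k = ⊥ := (Submodule.eq_bot_iff k).mpr h
    rw [e, finrank_bot] at h4
    omega
  obtain ⟨z0, hz0, hne0⟩ := hk0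
  obtain ⟨z1, hz1, e1, hne1, -⟩ := herm_15 st hz0 hne0 (fun _ => True) (fun _ _ => trivial)
    (fun _ _ _ _ => trivial) (fun _ _ _ => trivial) trivial
  obtain ⟨c1, hc1⟩ := hsq z1 hz1 e1
  have hc1' : c1 ≠ 0 := sq_ne_15 (k := k) e1 hne1 hc1
  -- the second element
  have hker : LinearMap.ker (ac_15 st hsq ⟨z1, hz1⟩) ≠ ⊥ := by
    apply LinearMap.ker_ne_bot_of_finrank_lt
    omega
  obtain ⟨⟨z2', hz2'⟩, hm, hne2'⟩ := (Submodule.ne_bot_iff _).mp hker
  have hac := ac_zero_15 st hsq ⟨z1, hz1⟩ ⟨z2', hz2'⟩ (LinearMap.mem_ker.mp hm)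
  have hne2'' : z2' ≠ 0 := fun h => hne2' (Subtype.ext h)
  obtain ⟨z2, hz2, e2, hne2, h21⟩ := herm_15 st hz2' hne2'' (fun x => x * z1 + z1 * x = 0)
    (fun x hx => by
      have := congrArg Matrix.conjTranspose hx
      rw [Matrix.conjTranspose_add, Matrix.conjTranspose_mul, Matrix.conjTranspose_mul, e1,
        Matrix.conjTranspose_zero] at this
      rw [add_comm]
      exact this)
    (fun x y hx hy => by
      have e : (x + y) * z1 + z1 * (x + y) = (x * z1 + z1 * x) + (y * z1 + z1 * y) := by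
        noncomm_ring
      rw [e, hx, hy, add_zero])
    (fun c x hx => by
      rw [Matrix.smul_mul, Matrix.mul_smul, ← smul_add, hx, smul_zero]) hac
  obtain ⟨c2, hc2⟩ := hsq z2 hz2 e2
  have hc2' : c2 ≠ 0 := sq_ne_15 (k := k) e2 hne2 hc2
  -- the third element
  have h12 : z1 * z2 = -(z2 * z1) := by
    rw [eq_neg_iff_add_eq_zero, add_comm]
    exact h21
  have hz3 : z1 * z2 ∈ k := by
    have h := k.smul_mem (1 / 2 : ℂ) (br z1 hz1 z2 hz2)
    have e : (1 / 2 : ℂ) • (z1 * z2 - z2 * z1) = z1 * z2 := by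
      have : z1 * z2 - z2 * z1 = (2 : ℂ) • (z1 * z2) := by
        rw [two_smul, sub_eq_add_neg, ← h12]
      rw [this, smul_smul]
      norm_num
    rwa [e] at h
  -- the fourth element
  let G : k →ₗ[ℂ] Submodule.span ℂ {p} × Submodule.span ℂ {p} × Submodule.span ℂ {p} :=
    (ac_15 st hsq ⟨z1, hz1⟩).prod ((ac_15 st hsq ⟨z2, hz2⟩).prod (ac_15 st hsq ⟨z1 * z2, hz3⟩))
  have hkerG : LinearMap.ker G ≠ ⊥ := by
    apply LinearMap.ker_ne_bot_of_finrank_lt
    rw [Module.finrank_prod, Module.finrank_prod]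
    omega
  obtain ⟨⟨z4, hz4⟩, hm4, hne4⟩ := (Submodule.ne_bot_iff _).mp hkerG
  have hG := LinearMap.mem_ker.mp hm4
  have g1 := ac_zero_15 st hsq ⟨z1, hz1⟩ ⟨z4, hz4⟩ (congrArg Prod.fst hG)
  have g2 := ac_zero_15 st hsq ⟨z2, hz2⟩ ⟨z4, hz4⟩ (congrArg (fun q => q.2.1) hG)
  have g3 := ac_zero_15 st hsq ⟨z1 * z2, hz3⟩ ⟨z4, hz4⟩ (congrArg (fun q => q.2.2) hG)
  simp only at g1 g2 g3
  apply hne4
  apply Subtype.ext
  change z4 = 0
  have g4 : z4 * (z1 * z2) = z1 * z2 * z4 := by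
    have a1 : z4 * z1 = -(z1 * z4) := eq_neg_iff_add_eq_zero.mpr g1
    have a2 : z4 * z2 = -(z2 * z4) := eq_neg_iff_add_eq_zero.mpr g2
    rw [← mul_assoc, a1, neg_mul, mul_assoc, a2, mul_neg, neg_neg, mul_assoc]
  have g5 : z1 * z2 * z4 = 0 := by
    rw [g4, ← two_smul ℂ] at g3
    exact (smul_eq_zero.mp g3).resolve_left two_ne_zero
  have g6 : z1 * z2 * (z1 * z2) = -(c1 * c2) • p := by
    calc z1 * z2 * (z1 * z2) = z1 * (z2 * z1) * z2 := by simp only [mul_assoc]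
      _ = z1 * (-(z1 * z2)) * z2 := by rw [h12, neg_neg]
      _ = -((z1 * z1) * (z2 * z2)) := by simp only [mul_neg, neg_mul, mul_assoc]
      _ = -((c1 • p) * (z2 * z2)) := by rw [hc1]
      _ = -(c1 • (p * z2 * z2)) := by rw [Matrix.smul_mul, mul_assoc]
      _ = -(c1 • (z2 * z2)) := by rw [hp z2 hz2]
      _ = -(c1 * c2) • p := by rw [hc2, smul_smul, neg_smul]
  have g7 : z1 * z2 * (z1 * z2) * z4 = 0 := by
    rw [mul_assoc (z1 * z2), g5, mul_zero]
  rw [g6, Matrix.smul_mul, hp z4 hz4] at g7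
  exact (smul_eq_zero.mp g7).resolve_left (neg_ne_zero.mpr (mul_ne_zero hc1' hc2'))

end GH
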